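import Mathlib
import Pool.Agent.W2helper68.DSR.Gen
import Pool.Agent.W2helper68.DSR.Dbl

set_option autoImplicit false

/-!
# MP_3a832c_nt: rational shifts, and almost all shifts

Q1 has a positive answer for every rational shift, with `c₁ = 1` and with explicit sets of
residues which do not depend on `ψ`; and for every `ψ` it has a positive answer, with `c₁ = 1`,
for all shifts outside a set which is meagre and of measure zero (and contains no rational number).
-/

namespace Pool.Agent.Results.MP_3a832c_nt.AllButMeagreNull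

open MeasureTheory Filter

/-- the distance of `t` to the nearest integer -/
noncomputable def nearest (t : ℝ) : ℝ := |t - round t|

/-- the set `E_q` of the `x` in `[0, 1]` for which some `a ∈ I q` satisfies
`‖x - (a + γ) / q‖ ≤ ψ q / q` -/
def E (γ : ℝ) (ψ : ℕ → ℝ) (I : ℕ → Finset ℕ) (q : ℕ) : Set ℝ :=
  {x | x ∈ Set.Icc (0 : ℝ) 1 ∧ ∃ a ∈ I q, nearest (x - ((a : ℝ) + γ) / q) ≤ ψ q / q}

/-- the limsup set of the sets `E_q` -/
def limsupE (γ : ℝ) (ψ : ℕ → ℝ) (I : ℕ → Finset ℕ) : Set ℝ :=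
  {x | ∃ᶠ q : ℕ in atTop, x ∈ E γ ψ I q}

/-- the implication `(*)` of the problem -/
def Star (γ : ℝ) (ψ : ℕ → ℝ) (I : ℕ → Finset ℕ) : Prop :=
  ¬ Summable (fun q : ℕ => ((I q).card : ℝ) * ψ q / q) → volume (limsupE γ ψ I) = 1

/-- Q1 for the shift `γ` and the function `ψ`, with the constant `c₁ = 1`: there are sets `I q` of
residues modulo `q` with at least `φ(q)` elements, for which `(*)` holds. -/
def Good (γ : ℝ) (ψ : ℕ → ℝ) : Prop :=
  ∃ I : ℕ → Finset ℕ, (∀ q, I q ⊆ Finset.range q) ∧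
    (∀ q, 1 ≤ q → Nat.totient q ≤ (I q).card) ∧ Star γ ψ I

/-- For the rational number `γ = u / v` in lowest terms: the residues `a` modulo `q` such that
`v a + u` is prime to `q`. -/
def R (γ : ℚ) (q : ℕ) : Finset ℕ :=
  (Finset.range q).filter fun a : ℕ => Int.gcd ((γ.den : ℤ) * a + γ.num) q = 1

theorem limsupE_eq (γ : ℝ) (ψ : ℕ → ℝ) (I : ℕ → Finset ℕ) :
    limsupE γ ψ I = {x : ℝ | x ∈ Set.Icc (0 : ℝ) 1 ∧ ∃ᶠ q : ℕ in atTop,
      ∃ a ∈ I q, Pool.Agent.W2helper68.DSR.nd (x - ((a : ℝ) + γ) / q) ≤ ψ q / q} := by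
  ext x
  simp only [limsupE, E, Set.mem_ofPred_eq]
  constructor
  · intro h
    obtain ⟨q, hq, _⟩ := h.exists
    exact ⟨hq, h.mono fun q h => h.2⟩
  · rintro ⟨hx, h⟩
    exact h.mono fun q h => ⟨hx, h⟩

theorem volume_of_tails (γ : ℝ) (ψ : ℕ → ℝ) (I : ℕ → Finset ℕ)
    (h : ∀ Q0 : ℕ, volume (Set.Ico (0 : ℝ) 1 \ {x : ℝ | ∃ q : ℕ, Q0 ≤ q ∧
      ∃ a ∈ I q, Pool.Agent.W2helper68.DSR.nd (x - ((a : ℝ) + γ) / q) ≤ ψ q / q}) = 0) :
    volume (limsupE γ ψ I) = 1 := by
  rw [limsupE_eq]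
  exact Pool.Agent.X152.DS.limsup_of_tails _ h

theorem rational (γ : ℚ) (ψ : ℕ → ℝ) (hψ : ∀ q, 0 ≤ ψ q) (s : ℕ → ℕ)
    (hs : ∀ q, 1 ≤ q → s q ≤ Nat.totient (γ.den * q))
    (hdiv : ¬ Summable (fun q : ℕ => (s q : ℝ) * ψ q / q)) :
    volume (limsupE (γ : ℝ) ψ (R γ)) = 1 := by
  have h1 : ¬ Summable fun q : ℕ => (Nat.totient (γ.den * q) : ℝ) * ψ q / q := by
    intro h
    apply hdiv
    refine Summable.of_nonneg_of_le (fun q => ?_) (fun q => ?_) h
    · exact div_nonneg (mul_nonneg (Nat.cast_nonneg _) (hψ q)) (Nat.cast_nonneg _)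
    · rcases Nat.eq_zero_or_pos q with h0 | h0
      · subst h0
        simp
      · have h2 : (s q : ℝ) ≤ Nat.totient (γ.den * q) := by exact_mod_cast hs q h0
        have h3 : (0 : ℝ) < q := by exact_mod_cast h0
        have h4 := hψ q
        gcongr
  have h2 := Pool.Agent.W2helper68.DSR.full_measure γ.den γ.den_pos γ.num
    (Pool.Agent.W2helper68.DSR.gcd_num_den γ) ψ hψ h1
  have hγ : (γ.num : ℝ) / γ.den = (γ : ℝ) := (Rat.cast_def γ).symm
  rw [hγ] at h2
  rw [limsupE_eq]
  exact h2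

/-- (1) Let `γ` be rational. The sets `R γ q` of residues have at least `φ(q)` elements, and they
satisfy `(*)` for every `ψ ≥ 0`; moreover the limsup set has full measure whenever the sum of
`φ(q) ψ(q) / q` diverges. (2) For every `ψ ≥ 0` the answer is positive with `c₁ = 1` for almost
every real `γ`, and for every `γ` in a residual set. -/
theorem result :
    (∀ γ : ℚ, (∀ q : ℕ, 1 ≤ q → Nat.totient q ≤ (R γ q).card) ∧
      ∀ ψ : ℕ → ℝ, (∀ q, 0 ≤ ψ q) → Star (γ : ℝ) ψ (R γ) ∧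
        (¬ Summable (fun q : ℕ => (Nat.totient q : ℝ) * ψ q / q) →
          volume (limsupE (γ : ℝ) ψ (R γ)) = 1)) ∧
    ∀ ψ : ℕ → ℝ, (∀ q, 0 ≤ ψ q) →
      (∀ᵐ γ : ℝ, Good γ ψ) ∧ (∀ᶠ γ : ℝ in residual ℝ, Good γ ψ) := by
  refine ⟨fun γ => ⟨fun q hq => Pool.Agent.W2helper68.DSR.card_RR γ q hq, fun ψ hψ =>
    ⟨fun h => ?_, fun h => ?_⟩⟩, fun ψ hψ => ⟨?_, ?_⟩⟩
  · exact rational γ ψ hψ (fun q => (R γ q).card)
      (fun q hq => Pool.Agent.W2helper68.DSR.card_II_le γ.den γ.den_pos γ.num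
        (Pool.Agent.W2helper68.DSR.gcd_num_den γ) q hq) h
  · exact rational γ ψ hψ (fun q => Nat.totient q)
      (fun q hq => Pool.Agent.W2helper68.DSR.totient_le_den γ q hq) h
  · -- almost every shift: all residues
    by_cases hs : Summable ψ
    · refine Eventually.of_forall fun γ => ⟨fun q => Finset.range q, fun q => Finset.Subset.refl _,
        fun q _ => by rw [Finset.card_range]; exact Nat.totient_le q, fun h => ?_⟩
      exfalso
      apply h
      refine Summable.of_nonneg_of_le (fun q => ?_) (fun q => ?_) hs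
      · exact div_nonneg (mul_nonneg (Nat.cast_nonneg _) (hψ q)) (Nat.cast_nonneg _)
      · rw [Finset.card_range]
        rcases Nat.eq_zero_or_pos q with h0 | h0
        · subst h0
          simpa using hψ 0
        · have h3 : (0 : ℝ) < q := by exact_mod_cast h0
          rw [mul_div_assoc, mul_div_cancel₀ _ h3.ne']
    · filter_upwards [Pool.Agent.W2helper68.DSR.ae_good ψ hψ hs] with γ hγ
      exact ⟨fun q => Finset.range q, fun q => Finset.Subset.refl _,
        fun q _ => by rw [Finset.card_range]; exact Nat.totient_le q,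
        fun _ => volume_of_tails γ ψ _ hγ⟩
  · -- a residual set of shifts
    by_cases hs : Summable (fun q : ℕ => (Nat.totient q : ℝ) * ψ q / q)
    · refine Eventually.of_forall fun γ => ⟨R 0, fun q => Finset.filter_subset _ _,
        fun q hq => Pool.Agent.W2helper68.DSR.card_RR 0 q hq, fun h => ?_⟩
      exfalso
      apply h
      refine Summable.of_nonneg_of_le (fun q => ?_) (fun q => ?_) hs
      · exact div_nonneg (mul_nonneg (Nat.cast_nonneg _) (hψ q)) (Nat.cast_nonneg _)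
      · rcases Nat.eq_zero_or_pos q with h0 | h0
        · subst h0
          simp
        · have h1 : (R 0 q).card ≤ Nat.totient (1 * q) :=
            Pool.Agent.W2helper68.DSR.card_II_le 1 one_pos 0 (by simp) q h0
          rw [one_mul] at h1
          have h2 : ((R 0 q).card : ℝ) ≤ Nat.totient q := by exact_mod_cast h1
          have h3 : (0 : ℝ) < q := by exact_mod_cast h0
          have h4 := hψ q
          gcongr
    · refine (Pool.Agent.W2helper68.DSR.residual_good ψ hψ hs).mono ?_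
      rintro γ ⟨I, h1, h2, h3⟩
      exact ⟨I, h1, h2, fun _ => volume_of_tails γ ψ I h3⟩

end Pool.Agent.Results.MP_3a832c_nt.AllButMeagreNull
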